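import Mathlib
import Pool.Agent.H67s.Norm
import Pool.Agent.H67s.NonE

/-!
# Four skew lines on a quadric degenerate to a locally Cohen-Macaulay curve in a double plane

Let `k` be an algebraically closed field, `Q₁` a nonsingular quadric surface in `ℙ³` and `C₁` the
union of four pairwise skew lines on `Q₁`. There is a family of quadrics `Q_a`, `a ∈ 𝔸¹`, with fibre
`Q₁` over `a = 1` and fibre a double plane `2H` over `a = 0`, and a flat family of curves
`C_a ⊂ Q_a` with fibre `C₁` over `a = 1`, such that all `C_a`, in particular `C₀ ⊂ 2H`, are locally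
Cohen-Macaulay.

In suitable coordinates `Q₁` is `x² - x y - z w = 0`, the lines are `x = t z`, `y = t z - w / t` for
four values of `t`, and the family is obtained with the one-parameter group `(a³, a, 1, 1)`. The
limit is the quadruple structure on the line `x = y = 0` with the ideal
`(x², x y, y⁴, h y³ - f x)`, where `h = c z w (w² - p z²)` (`p` the product of the four values `t i`)
and `f` is the product of the six linear forms `z + w / (t i * t j)`, up to constants. The
coordinates can be chosen such that `h` and `f` have no common zeros.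
-/

set_option autoImplicit false

open MvPolynomial Pool.Agent.H67s

namespace Pool.Agent.Results.MP_9e0d98_ag.LCMLimit

variable {k : Type*} [Field k]

/-- The quadric surface `q = 0` in `ℙ³` is nonsingular: there is no point of it at which all partial
derivatives of `q` vanish. -/
def NonsingularQuadric (q : MvPolynomial (Fin 4) k) : Prop :=
  ∀ v : Fin 4 → k, v ≠ 0 → eval v q = 0 → ∃ i, eval v (pderiv i q) ≠ 0

/-- The value at `T = a` of a polynomial with coefficients in `k[T]`. -/
noncomputable def polyAt (a : k) (F : MvPolynomial (Fin 4) (Polynomial k)) :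
    MvPolynomial (Fin 4) k :=
  map (Polynomial.evalRingHom a) F

/-- The ideal of the fibre over `T = a` of the closed subscheme of `ℙ³ × 𝔸¹` which is defined by the
homogeneous ideal `I` of `k[T][x₀, x₁, x₂, x₃]`. -/
noncomputable def idealAt (a : k) (I : Ideal (MvPolynomial (Fin 4) (Polynomial k))) :
    Ideal (MvPolynomial (Fin 4) k) :=
  I.map (map (Polynomial.evalRingHom a))

/-- The closed subscheme `C` of `ℙ³` which is defined by the homogeneous ideal `I` is a locally
Cohen-Macaulay curve, that is, it is of pure dimension one and has no embedded points and no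
isolated points. In terms of `I`: every associated prime `P` of `k[x₀, x₁, x₂, x₃] / I`, other than
the irrelevant ideal (which does not define a point of `ℙ³`), is the ideal of a curve (the dimension
of the ring `k[x₀, x₁, x₂, x₃] / P` is two); and there is such an associated prime. -/
def LocallyCohenMacaulayCurve (I : Ideal (MvPolynomial (Fin 4) k)) : Prop :=
  (∀ P ∈ associatedPrimes (MvPolynomial (Fin 4) k) (MvPolynomial (Fin 4) k ⧸ I),
    P = Ideal.span (Set.range X) ∨ ringKrullDim (MvPolynomial (Fin 4) k ⧸ P) = 2) ∧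
  ∃ P ∈ associatedPrimes (MvPolynomial (Fin 4) k) (MvPolynomial (Fin 4) k ⧸ I),
    ringKrullDim (MvPolynomial (Fin 4) k ⧸ P) = 2

/-- The family of quadrics in standard coordinates. -/
noncomputable def stdQuadric (k : Type*) [Field k] : MvPolynomial (Fin 4) (Polynomial k) :=
  X 0 ^ 2 - C Polynomial.X ^ 2 * X 0 * X 1 - C Polynomial.X ^ 6 * X 2 * X 3

lemma eval_std (a : k) (x : Fin 4 → k) : eval x (polyAt a (stdQuadric k)) =
    x 0 ^ 2 - a ^ 2 * x 0 * x 1 - a ^ 6 * x 2 * x 3 := by
  simp [polyAt, stdQuadric]

lemma std_homog : (stdQuadric k).IsHomogeneous 2 := by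
  have hC : ∀ p : Polynomial k, (C p : MvPolynomial (Fin 4) (Polynomial k)).IsHomogeneous 0 :=
    fun p => isHomogeneous_C _ _
  unfold stdQuadric
  refine ((isHomogeneous_X_pow 0 2).sub ?_).sub ?_
  · have := (((hC Polynomial.X).pow 2).mul (isHomogeneous_X _ (0 : Fin 4))).mul
      (isHomogeneous_X _ (1 : Fin 4))
    simpa using this
  · have := (((hC Polynomial.X).pow 6).mul (isHomogeneous_X _ (2 : Fin 4))).mul
      (isHomogeneous_X _ (3 : Fin 4))
    simpa using this

lemma eval_phiA (t : Fin 4 → k) (i : Fin 4) (G : MvPolynomial (Fin 4) k) (u : Fin 2 → k) :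
    eval u (phiA t 1 i G) = eval ![t i * u 0, t i * u 0 - (t i)⁻¹ * u 1, u 0, u 1] G := by
  have : (eval u).comp (phiA t 1 i).toRingHom =
      eval ![t i * u 0, t i * u 0 - (t i)⁻¹ * u 1, u 0, u 1] := by
    apply MvPolynomial.ringHom_ext
    · intro r; simp [phiA, algebraMap_eq]
    · intro j
      fin_cases j <;> simp [phiA, xi, eta]
  exact congrArg (fun f => f G) this

/-- Let `k` be an algebraically closed field, `Q₁ = {q = 0}` a nonsingular quadric surface and
`L 0, ..., L 3` four pairwise skew lines on `Q₁` (two-dimensional subspaces of `k⁴` with trivial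
intersections). Then there are a family of quadric surfaces `Q_a`, `a ∈ 𝔸¹(k) = k`, given by a
quadratic form `Q` with coefficients in `k[T]` without zero fibres, such that the fibre over `1` is
`Q₁` and the fibre over `0` is a double plane `l² = 0`, and a closed subscheme of `ℙ³ × 𝔸¹`, given by
a homogeneous ideal `I` of `k[T][x₀, x₁, x₂, x₃]`, which is flat over `𝔸¹` and contained in the
family of quadrics, such that the fibre over `1` is the (reduced) union of the four lines, and all
fibres, in particular the fibre over `0`, are locally Cohen-Macaulay curves. -/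
theorem result (k : Type*) [Field k] [IsAlgClosed k]
    (q : MvPolynomial (Fin 4) k) (hq : q.IsHomogeneous 2) (hns : NonsingularQuadric q)
    (L : Fin 4 → Submodule k (Fin 4 → k)) (hdim : ∀ i, Module.finrank k (L i) = 2)
    (hskew : ∀ i j, i ≠ j → L i ⊓ L j = ⊥) (hL : ∀ i, ∀ v ∈ L i, eval v q = 0) :
    ∃ (Q : MvPolynomial (Fin 4) (Polynomial k)) (I : Ideal (MvPolynomial (Fin 4) (Polynomial k))),
      -- the family of quadrics
      Q.IsHomogeneous 2 ∧ (∀ a : k, polyAt a Q ≠ 0) ∧ polyAt 1 Q = q ∧
      (∃ l : MvPolynomial (Fin 4) k, l.IsHomogeneous 1 ∧ l ≠ 0 ∧ polyAt 0 Q = l ^ 2) ∧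
      -- the flat family of curves
      (∀ F ∈ I, ∀ n : ℕ, homogeneousComponent n F ∈ I) ∧
      Module.Flat (Polynomial k) (MvPolynomial (Fin 4) (Polynomial k) ⧸ I) ∧
      -- it is contained in the family of quadrics
      Q ∈ I ∧
      -- the fibre over `1` is the union of the four lines
      (∀ F : MvPolynomial (Fin 4) k, F ∈ idealAt 1 I ↔ ∀ i, ∀ v ∈ L i, eval v F = 0) ∧
      -- all fibres are locally Cohen-Macaulay curves
      ∀ a : k, LocallyCohenMacaulayCurve (idealAt a I) := by
  have : Infinite k := IsAlgClosed.instInfinite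
  obtain ⟨N, M, t, c, hNM, hc, ht0, ht, hg, hLi, hqN⟩ := normal_form hq hns hdim
    (fun i j hij => disjoint_iff.2 (hskew i j hij)) hL
  have hMN : M * N = 1 := mul_eq_one_comm.1 hNM
  -- the equation of the family of quadrics
  set Q : MvPolynomial (Fin 4) (Polynomial k) :=
    C (Polynomial.C c) * Pool.Agent.H67s.sub (up M) (stdQuadric k) with hQ
  have hQa : ∀ a, polyAt a Q = C c * Pool.Agent.H67s.sub M (polyAt a (stdQuadric k)) := by
    intro a
    rw [hQ]
    unfold polyAt
    rw [map_mul, map_C]
    have := ev_sub M a (stdQuadric k)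
    unfold ev at this
    rw [this]
    simp
  have hQe : ∀ a v, eval v (polyAt a Q) = c * (M.mulVec v 0 ^ 2 - a ^ 2 * M.mulVec v 0 *
      M.mulVec v 1 - a ^ 6 * M.mulVec v 2 * M.mulVec v 3) := by
    intro a v
    rw [hQa, map_mul, eval_C, Pool.Agent.H67s.sub_eval, eval_std]
  have hMe : M.mulVec (N.mulVec ![1, 0, 0, 0]) = ![1, 0, 0, 0] := by
    rw [Matrix.mulVec_mulVec, hMN, Matrix.one_mulVec]
  refine ⟨Q, famN N t, ?_, ?_, ?_, ?_, ?_, ?_, ?_, ?_, ?_⟩
  · exact (Pool.Agent.H67s.sub_homog _ std_homog).C_mul _
  · intro a h0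
    have h1 := hQe a (N.mulVec ![1, 0, 0, 0])
    rw [h0, map_zero, hMe] at h1
    apply hc
    simpa using h1.symm
  · apply MvPolynomial.funext
    intro v
    rw [hQe]
    have h1 := hqN (M.mulVec v)
    rw [Matrix.mulVec_mulVec, hNM, Matrix.one_mulVec] at h1
    rw [h1]; ring
  · obtain ⟨s, hs⟩ := IsAlgClosed.exists_pow_nat_eq c (n := 2) (by norm_num)
    have hs0 : s ≠ 0 := by
      rintro rfl
      apply hc
      rw [← hs]; ring
    refine ⟨C s * Pool.Agent.H67s.sub M (X 0),
      (Pool.Agent.H67s.sub_homog M (isHomogeneous_X _ _)).C_mul _, ?_, ?_⟩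
    · intro h0
      have h1 := congrArg (eval (N.mulVec ![1, 0, 0, 0])) h0
      rw [map_mul, eval_C, Pool.Agent.H67s.sub_eval, hMe] at h1
      apply hs0
      simpa using h1
    · apply MvPolynomial.funext
      intro v
      rw [hQe, map_pow, map_mul, eval_C, Pool.Agent.H67s.sub_eval, eval_X, ← hs]
      ring
  · intro F hF n
    exact famN_homog N t hF n
  · exact famN_flat N t
  · rw [mem_famN', hQ, map_mul, Pool.Agent.H67s.sub_sub,
      up_mul, hMN, up_one, Pool.Agent.H67s.sub_one]
    exact Ideal.mul_mem_left _ _ (quadric_mem_fam ht0)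
  · intro F
    have h1 := mem_fibre_famN hNM (t := t) (a := 1) (F := F)
    rw [mem_fibre_ne t one_ne_zero] at h1
    refine Iff.trans h1 ?_
    refine forall_congr' fun i => ?_
    constructor
    · intro h v hv
      obtain ⟨z, w, rfl⟩ := (hLi i v).1 hv
      rw [← Pool.Agent.H67s.sub_eval]
      have h2 := eval_phiA t i (Pool.Agent.H67s.sub N F) ![z, w]
      rw [h, map_zero] at h2
      simpa using h2.symm
    · intro h
      apply MvPolynomial.funext
      intro u
      rw [eval_phiA, Pool.Agent.H67s.sub_eval, map_zero]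
      exact h _ ((hLi i _).2 ⟨u 0, u 1, rfl⟩)
  · intro a
    by_cases ha : a = 0
    · subst ha
      exact ⟨lcm_famN hNM (lcm_zero ht0 ht hg),
        hasCurve_famN hNM (hasCurve_zero ht0 ht)⟩
    · exact ⟨lcm_famN hNM (lcm_ne t ha),
        hasCurve_famN hNM (hasCurve_ne ht ha)⟩

end Pool.Agent.Results.MP_9e0d98_ag.LCMLimit
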